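import Mathlib

/-!
# A Bohr set without joint thick return times along `t ^ (3/2)` and `α t ^ (3/2) + t`
-/

set_option autoImplicit false

open Filter

namespace Pool.Agent.R205.BohrThick

open Classical in
/-- pigeonhole: the Bohr set `{y : y α is within ε of an integer}` has many elements -/
theorem bohr_count (α : ℝ) (K : ℕ) (hK : 0 < K) (N : ℕ) :
    (N : ℝ) / K - 1 ≤
      (((Finset.Icc 1 N).filter fun y : ℕ => ∃ k : ℤ, |(y : ℝ) * α - k| < 1 / K).card : ℝ) := by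
  have hK' : (0 : ℝ) < K := by exact_mod_cast hK
  rcases Nat.eq_zero_or_pos N with h0 | hN
  · subst h0
    refine le_trans ?_ (Nat.cast_nonneg _)
    norm_num
  -- colours
  let c : ℕ → ℕ := fun y => ⌊(K : ℝ) * Int.fract ((y : ℝ) * α)⌋₊
  have hc : ∀ y ∈ Finset.Icc 1 N, c y ∈ Finset.range K := by
    intro y _
    rw [Finset.mem_range]
    show ⌊(K : ℝ) * Int.fract ((y : ℝ) * α)⌋₊ < K
    rw [Nat.floor_lt (by positivity)]
    have := Int.fract_lt_one ((y : ℝ) * α)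
    nlinarith
  have hne : (Finset.range K).Nonempty := ⟨0, Finset.mem_range.2 hK⟩
  obtain ⟨k, _, hk⟩ := Finset.exists_le_card_fiber_of_nsmul_le_card_of_maps_to
    (b := (N : ℝ) / K) hc hne (by
      rw [Nat.card_Icc, Finset.card_range, nsmul_eq_mul]
      rw [mul_div_cancel₀ _ hK'.ne']
      simp)
  set F := (Finset.Icc 1 N).filter (fun y => c y = k) with hF
  have hFne : F.Nonempty := by
    rw [← Finset.card_pos]
    have : (0 : ℝ) < (F.card : ℝ) := lt_of_lt_of_le (by positivity) hk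
    exact_mod_cast this
  set y₀ := F.min' hFne with hy₀
  have hy₀F : y₀ ∈ F := F.min'_mem hFne
  have hmin : ∀ y ∈ F, y₀ ≤ y := fun y hy => F.min'_le y hy
  have hsub : (F.erase y₀).image (fun y => y - y₀) ⊆
      (Finset.Icc 1 N).filter fun y : ℕ => ∃ k : ℤ, |(y : ℝ) * α - k| < 1 / K := by
    intro z hz
    rw [Finset.mem_image] at hz
    obtain ⟨y, hy, rfl⟩ := hz
    rw [Finset.mem_erase] at hy
    obtain ⟨hne', hyF⟩ := hy
    have h1 := hmin y hyF
    have h2 : y₀ < y := lt_of_le_of_ne h1 (Ne.symm hne')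
    have hyI := Finset.mem_filter.1 hyF
    have hy0I := Finset.mem_filter.1 hy₀F
    rw [Finset.mem_filter, Finset.mem_Icc]
    refine ⟨⟨by omega, ?_⟩, ?_⟩
    · have := (Finset.mem_Icc.1 hyI.1).2
      omega
    · refine ⟨⌊(y : ℝ) * α⌋ - ⌊(y₀ : ℝ) * α⌋, ?_⟩
      rw [Nat.cast_sub h1]
      push_cast
      have e : ((y : ℝ) - y₀) * α - (⌊(y : ℝ) * α⌋ - ⌊(y₀ : ℝ) * α⌋) =
          Int.fract ((y : ℝ) * α) - Int.fract ((y₀ : ℝ) * α) := by
        rw [Int.fract, Int.fract]; ring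
      rw [e]
      have f1 : c y = k := hyI.2
      have f2 : c y₀ = k := hy0I.2
      have g1 := Nat.floor_le (a := (K : ℝ) * Int.fract ((y : ℝ) * α)) (by positivity)
      have g2 := Nat.lt_floor_add_one ((K : ℝ) * Int.fract ((y : ℝ) * α))
      have g3 := Nat.floor_le (a := (K : ℝ) * Int.fract ((y₀ : ℝ) * α)) (by positivity)
      have g4 := Nat.lt_floor_add_one ((K : ℝ) * Int.fract ((y₀ : ℝ) * α))
      have f1' : ⌊(K : ℝ) * Int.fract ((y : ℝ) * α)⌋₊ = k := f1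
      have f2' : ⌊(K : ℝ) * Int.fract ((y₀ : ℝ) * α)⌋₊ = k := f2
      rw [f1'] at g1 g2
      rw [f2'] at g3 g4
      rw [abs_lt]
      have w1 : Int.fract ((y₀ : ℝ) * α) - Int.fract ((y : ℝ) * α) < 1 / K := by
        rw [lt_div_iff₀ hK']
        linarith
      have w2 : Int.fract ((y : ℝ) * α) - Int.fract ((y₀ : ℝ) * α) < 1 / K := by
        rw [lt_div_iff₀ hK']
        linarith
      constructor
      · linarith
      · exact w2
  have hinj : Set.InjOn (fun y => y - y₀) ((F.erase y₀ : Finset ℕ) : Set ℕ) := by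
    intro a ha b hb hab
    have h1 := hmin a (Finset.mem_of_mem_erase (Finset.mem_coe.1 ha))
    have h2 := hmin b (Finset.mem_of_mem_erase (Finset.mem_coe.1 hb))
    have : a - y₀ = b - y₀ := hab
    omega
  have hcard := Finset.card_le_card hsub
  rw [Finset.card_image_of_injOn hinj, Finset.card_erase_of_mem hy₀F] at hcard
  have h5 : (F.card : ℝ) - 1 ≤ ((F.card - 1 : ℕ) : ℝ) := by
    have : F.card ≤ F.card - 1 + 1 := by omega
    have : (F.card : ℝ) ≤ ((F.card - 1 : ℕ) : ℝ) + 1 := by exact_mod_cast this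
    linarith
  have h6 : (((F.card - 1 : ℕ) : ℝ)) ≤
      (((Finset.Icc 1 N).filter fun y : ℕ => ∃ k : ℤ, |(y : ℝ) * α - k| < 1 / K).card : ℝ) := by
    exact_mod_cast hcard
  linarith

/-- The set `E`: multiples `M y` of `M`, where `y α` is within `1 / (2 M)` of an integer. -/
def bohrSet (α : ℝ) (M : ℕ) : Set ℕ :=
  {x | ∃ y : ℕ, 1 ≤ y ∧ x = M * y ∧ ∃ k : ℤ, |(y : ℝ) * α - k| < 1 / (2 * M : ℕ)}

theorem bohrSet_pos {α : ℝ} {M : ℕ} (hM : 0 < M) {x : ℕ} (hx : x ∈ bohrSet α M) : 1 ≤ x := by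
  obtain ⟨y, hy, rfl, _⟩ := hx
  exact Nat.mul_pos hM hy

theorem bohrSet_count (α : ℝ) (M : ℕ) (hM : 0 < M) (N : ℕ) :
    (N : ℝ) / (2 * M ^ 2) - 2 ≤ ((bohrSet α M ∩ Set.Icc 1 N).ncard : ℝ) := by
  classical
  have hM' : (1 : ℝ) ≤ M := by exact_mod_cast hM
  have h1 := bohr_count α (2 * M) (by omega) (N / M)
  set G := (Finset.Icc 1 (N / M)).filter fun y : ℕ => ∃ k : ℤ, |(y : ℝ) * α - k| < 1 / (2 * M : ℕ)
    with hG
  have hsub : ((G.image fun y => M * y : Finset ℕ) : Set ℕ) ⊆ bohrSet α M ∩ Set.Icc 1 N := by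
    intro x hx
    rw [Finset.mem_coe, Finset.mem_image] at hx
    obtain ⟨y, hy, rfl⟩ := hx
    rw [hG, Finset.mem_filter, Finset.mem_Icc] at hy
    refine ⟨⟨y, hy.1.1, rfl, hy.2⟩, ?_, ?_⟩
    · exact Nat.mul_pos hM hy.1.1
    · calc M * y ≤ M * (N / M) := Nat.mul_le_mul_left _ hy.1.2
        _ ≤ N := Nat.mul_div_le N M
  have hfin : (bohrSet α M ∩ Set.Icc 1 N).Finite := (Set.finite_Icc 1 N).inter_of_right _
  have h2 := Set.ncard_le_ncard hsub hfin
  rw [Set.ncard_coe_finset, Finset.card_image_of_injective _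
    (fun a b hab => Nat.eq_of_mul_eq_mul_left hM hab)] at h2
  have h3 : (G.card : ℝ) ≤ ((bohrSet α M ∩ Set.Icc 1 N).ncard : ℝ) := by exact_mod_cast h2
  have h4 : (N : ℝ) / M - 1 ≤ ((N / M : ℕ) : ℝ) := by
    have := Nat.lt_div_mul_add (a := N) hM
    have h5 : (N : ℝ) < ((N / M : ℕ) : ℝ) * M + M := by exact_mod_cast this
    rw [sub_le_iff_le_add, div_le_iff₀ (by linarith)]
    nlinarith
  have h6 : ((N : ℝ) / M - 1) / ((2 * M : ℕ) : ℝ) ≤ ((N / M : ℕ) : ℝ) / ((2 * M : ℕ) : ℝ) := by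
    gcongr
  have h7 : ((N : ℝ) / M - 1) / ((2 * M : ℕ) : ℝ) = (N : ℝ) / (2 * M ^ 2) - 1 / (2 * M) := by
    push_cast
    field_simp
  have h8 : (1 : ℝ) / (2 * M) ≤ 1 := by
    rw [div_le_one (by linarith)]
    linarith
  linarith

/-- The upper density of a set of natural numbers. -/
noncomputable def upperDensity (E : Set ℕ) : ℝ :=
  limsup (fun N : ℕ => ((E ∩ Set.Icc 1 N).ncard : ℝ) / N) atTop

theorem upperDensity_pos_of_count {E : Set ℕ} {c C : ℝ} (hc : 0 < c)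
    (h : ∀ N : ℕ, c * N - C ≤ ((E ∩ Set.Icc 1 N).ncard : ℝ)) : 0 < upperDensity E := by
  have hev : ∀ᶠ N : ℕ in atTop, c / 2 ≤ ((E ∩ Set.Icc 1 N).ncard : ℝ) / N := by
    filter_upwards [eventually_ge_atTop (⌈2 * C / c⌉₊ + 1)] with N hN
    have hN0 : (0 : ℝ) < N := by exact_mod_cast (by omega : 0 < N)
    rw [le_div_iff₀ hN0]
    have h1 := h N
    have h2 : 2 * C / c ≤ N := by
      have := Nat.le_ceil (2 * C / c)
      have h3 : ((⌈2 * C / c⌉₊ : ℕ) : ℝ) ≤ N := by exact_mod_cast (by omega : ⌈2 * C / c⌉₊ ≤ N)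
      linarith
    rw [div_le_iff₀ hc] at h2
    linarith
  have hb : IsBoundedUnder (· ≤ ·) atTop (fun N : ℕ => ((E ∩ Set.Icc 1 N).ncard : ℝ) / N) := by
    refine ⟨1, ?_⟩
    rw [eventually_map]
    refine Eventually.of_forall fun N => ?_
    rcases Nat.eq_zero_or_pos N with h0 | h0
    · subst h0
      norm_num
    · rw [div_le_one (by exact_mod_cast h0)]
      have h1 : (E ∩ Set.Icc 1 N).ncard ≤ (Set.Icc 1 N).ncard :=
        Set.ncard_le_ncard Set.inter_subset_right (Set.finite_Icc 1 N)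
      have h2 : (Set.Icc 1 N).ncard = N := by
        rw [← Finset.coe_Icc, Set.ncard_coe_finset, Nat.card_Icc]
        omega
      rw [h2] at h1
      exact_mod_cast h1
  have := le_limsup_of_frequently_le hev.frequently hb
  have h3 : 0 < c / 2 := by positivity
  exact lt_of_lt_of_le h3 this

/-- Return times of `E` along `f`: the `n ≥ 1` such that some `x ∈ E` satisfies
`x + ⌊f n⌋ ∈ E`. -/
def returnTimes (E : Set ℕ) (f : ℝ → ℝ) : Set ℕ :=
  {n | 1 ≤ n ∧ ∃ x ∈ E, ∃ y ∈ E, (y : ℤ) = x + ⌊f n⌋}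

/-- key estimate -/
theorem near_multiple {α : ℝ} {M : ℕ} (hM : 0 < M) {n : ℕ}
    (h1 : n ∈ returnTimes (bohrSet α M) fun t => t ^ (3 / 2 : ℝ))
    (h2 : n ∈ returnTimes (bohrSet α M) fun t => α * t ^ (3 / 2 : ℝ) + t) :
    ∃ j : ℤ, |(n : ℝ) - M * j| < 2 + |α| := by
  obtain ⟨_, x, ⟨u, _, hxu, k, hk⟩, y, ⟨v, _, hyv, l, hl⟩, hxy⟩ := h1
  obtain ⟨_, x', ⟨u', _, hxu', _⟩, y', ⟨v', _, hyv', _⟩, hxy'⟩ := h2
  simp only at hxy hxy'
  have hM' : (0 : ℝ) < M := by exact_mod_cast hM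
  set a : ℝ := (n : ℝ) ^ (3 / 2 : ℝ) with ha
  have e1 : (⌊a⌋ : ℝ) = M * ((v : ℝ) - u) := by
    have : ⌊a⌋ = (y : ℤ) - x := by omega
    rw [this, hxu, hyv]
    push_cast
    ring
  have e2 : (⌊α * a + n⌋ : ℝ) = M * ((v' : ℝ) - u') := by
    have : ⌊α * a + n⌋ = (y' : ℤ) - x' := by omega
    rw [this, hxu', hyv']
    push_cast
    ring
  have i1 := Int.floor_le a
  have i2 := Int.lt_floor_add_one a
  have i3 := Int.floor_le (α * a + n)
  have i4 := Int.lt_floor_add_one (α * a + n)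
  rw [e1] at i1 i2
  rw [e2] at i3 i4
  refine ⟨(v' : ℤ) - u' - (l - k), ?_⟩
  push_cast at hk hl ⊢
  rw [lt_div_iff₀ (by positivity), ← abs_of_pos (show (0:ℝ) < 2 * M by positivity), ← abs_mul,
    abs_lt] at hk hl
  set p : ℝ := α * a + n - M * ((v' : ℝ) - u') with hp
  set q : ℝ := a - M * ((v : ℝ) - u) with hq
  have hp0 : 0 ≤ p := by linarith
  have hp1 : p < 1 := by linarith
  have hq0 : 0 ≤ q := by linarith
  have hq1 : q < 1 := by linarith
  have key : (n : ℝ) - M * ((v' : ℝ) - u' - (l - k)) =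
      p - α * q - (((v : ℝ) * α - l) * M - ((u : ℝ) * α - k) * M) := by
    rw [hp, hq]; ring
  rw [key]
  have hαq : |α * q| ≤ |α| := by
    rw [abs_mul, abs_of_nonneg hq0]
    have := abs_nonneg α
    nlinarith
  rw [abs_le] at hαq
  rw [abs_lt]
  constructor <;> nlinarith [hk.1, hk.2, hl.1, hl.2, hαq.1, hαq.2]

/-- in every block of `M` consecutive integers there is one far from the multiples of `M` -/
theorem exists_far {M : ℕ} {c : ℝ} (hM : 2 * c + 1 ≤ M) (hM0 : 0 < M) (a : ℕ) :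
    ∃ i : ℕ, i ≤ M ∧ ∀ j : ℤ, c ≤ |((a + i : ℕ) : ℝ) - M * j| := by
  -- the number `n` in `[a, a + M)` congruent to `M / 2` modulo `M`
  obtain ⟨i, hi, hmod⟩ : ∃ i : ℕ, i ≤ M ∧ (a + i) % M = M / 2 := by
    refine ⟨(M / 2 + (M - a % M)) % M, (Nat.mod_lt _ hM0).le, ?_⟩
    rw [Nat.add_mod, Nat.mod_mod, ← Nat.add_mod]
    have h1 : a % M < M := Nat.mod_lt _ hM0
    have h2 : a + (M / 2 + (M - a % M)) = M / 2 + M * (a / M + 1) := by
      have := Nat.div_add_mod a M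
      have h3 : M * (a / M + 1) = M * (a / M) + M := by ring
      rw [h3]
      omega
    rw [h2, Nat.add_mul_mod_self_left, Nat.mod_eq_of_lt]
    omega
  refine ⟨i, hi, fun j => ?_⟩
  have hdm := Nat.div_add_mod (a + i) M
  rw [hmod] at hdm
  set b := (a + i) / M with hb
  have e : ((a + i : ℕ) : ℝ) = M * b + ((M / 2 : ℕ) : ℝ) := by
    rw [← hdm]; push_cast; ring
  rw [e]
  have h2 : (M : ℝ) - 1 ≤ 2 * ((M / 2 : ℕ) : ℝ) := by
    have : M ≤ 2 * (M / 2) + 1 := by omega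
    have : (M : ℝ) ≤ 2 * ((M / 2 : ℕ) : ℝ) + 1 := by exact_mod_cast this
    linarith
  have h3 : 2 * ((M / 2 : ℕ) : ℝ) ≤ M := by
    have : 2 * (M / 2) ≤ M := by omega
    exact_mod_cast this
  have hMr : (0 : ℝ) < M := by exact_mod_cast hM0
  rcases le_or_gt j b with hj | hj
  · have hj' : (j : ℝ) ≤ b := by exact_mod_cast hj
    refine le_trans ?_ (le_abs_self _)
    nlinarith
  · have hj' : (b : ℝ) + 1 ≤ j := by exact_mod_cast hj
    refine le_trans ?_ (neg_le_abs _)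
    nlinarith

/-- A set of natural numbers is thick if it contains arbitrarily long intervals. -/
def Thick (S : Set ℕ) : Prop := ∀ L : ℕ, ∃ a : ℕ, 1 ≤ a ∧ ∀ i : ℕ, i ≤ L → a + i ∈ S

theorem main (α : ℝ) : ∃ E : Set ℕ, (∀ x ∈ E, 1 ≤ x) ∧ 0 < upperDensity E ∧
    ¬ Thick (returnTimes E (fun t => t ^ (3 / 2 : ℝ)) ∩
      returnTimes E (fun t => α * t ^ (3 / 2 : ℝ) + t)) := by
  obtain ⟨M, hM⟩ := exists_nat_ge (2 * (2 + |α|) + 1)
  have hMpos : 0 < M := by
    have : (0 : ℝ) < M := lt_of_lt_of_le (by positivity) hM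
    exact_mod_cast this
  refine ⟨bohrSet α M, fun x hx => bohrSet_pos hMpos hx, ?_, ?_⟩
  · refine upperDensity_pos_of_count (c := 1 / (2 * M ^ 2)) (C := 2) (by positivity) fun N => ?_
    have := bohrSet_count α M hMpos N
    have e : 1 / (2 * (M : ℝ) ^ 2) * N = (N : ℝ) / (2 * M ^ 2) := by ring
    rw [e]
    exact this
  · intro hthick
    obtain ⟨a, _, ha⟩ := hthick M
    obtain ⟨i, hi, hfar⟩ := exists_far (c := 2 + |α|) hM hMpos a
    obtain ⟨h1, h2⟩ := ha i hi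
    obtain ⟨j, hj⟩ := near_multiple hMpos h1 h2
    exact absurd hj (not_lt.2 (hfar j))

end Pool.Agent.R205.BohrThick
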