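import Mathlib

/-!
# The Hardy field of rational functions in `√t`
-/

set_option autoImplicit false
set_option linter.unusedSimpArgs false

open Filter Topology Polynomial

namespace Pool.Agent.R205.HardySqrt

/-- A Hardy field: a subring of the ring of germs at `+∞` of real functions which is a field, all of
whose elements are germs of eventually differentiable functions, and which is closed under
differentiation. -/
structure IsHardyField (H : Subring (Germ (atTop : Filter ℝ) ℝ)) : Prop where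
  inv_mem : ∀ g ∈ H, g ≠ 0 → ∃ h ∈ H, g * h = 1
  deriv_mem : ∀ f : ℝ → ℝ, (f : Germ (atTop : Filter ℝ) ℝ) ∈ H →
    (∀ᶠ t in atTop, DifferentiableAt ℝ f t) ∧ ((deriv f : ℝ → ℝ) : Germ (atTop : Filter ℝ) ℝ) ∈ H

/-- the function `t ↦ p(√t) / q(√t)` -/
noncomputable def rat (p q : ℝ[X]) (t : ℝ) : ℝ := p.eval (√t) / q.eval (√t)

lemma eventually_eval_ne_zero {q : ℝ[X]} (hq : q ≠ 0) : ∀ᶠ t : ℝ in atTop, q.eval (√t) ≠ 0 := by
  have h1 : ∀ᶠ x : ℝ in atTop, q.eval x ≠ 0 := by
    have hfin : (q.rootSet ℝ).Finite := q.rootSet_finite ℝ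
    have h2 : ∀ᶠ x : ℝ in atTop, x ∉ q.rootSet ℝ := by
      obtain ⟨B, hB⟩ := hfin.bddAbove
      filter_upwards [eventually_gt_atTop B] with x hx hmem
      exact absurd (hB hmem) (not_le.2 hx)
    filter_upwards [h2] with x hx h0
    apply hx
    rw [mem_rootSet]
    exact ⟨hq, by simpa using h0⟩
  exact Real.tendsto_sqrt_atTop.eventually h1

/-- the set of germs of the functions `rat p q` -/
def carrier : Set (Germ (atTop : Filter ℝ) ℝ) :=
  {g | ∃ p q : ℝ[X], q ≠ 0 ∧ g = ((rat p q : ℝ → ℝ) : Germ (atTop : Filter ℝ) ℝ)}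

/-- the Hardy field of rational functions in `√t` -/
def sqrtField : Subring (Germ (atTop : Filter ℝ) ℝ) where
  carrier := carrier
  mul_mem' := by
    rintro a b ⟨p, q, hq, rfl⟩ ⟨p', q', hq', rfl⟩
    refine ⟨p * p', q * q', mul_ne_zero hq hq', ?_⟩
    rw [← Germ.coe_mul]
    congr 1
    funext t
    simp only [Pi.mul_apply, rat, eval_mul]
    exact div_mul_div_comm _ _ _ _
  one_mem' := by
    refine ⟨1, 1, one_ne_zero, ?_⟩
    rw [← Germ.coe_one]
    congr 1
    funext t
    simp [rat]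
  add_mem' := by
    rintro a b ⟨p, q, hq, rfl⟩ ⟨p', q', hq', rfl⟩
    refine ⟨p * q' + q * p', q * q', mul_ne_zero hq hq', ?_⟩
    rw [← Germ.coe_add]
    apply Germ.coe_eq.2
    filter_upwards [eventually_eval_ne_zero hq, eventually_eval_ne_zero hq'] with t h1 h2
    simp only [Pi.add_apply, rat, eval_mul, eval_add]
    rw [div_add_div _ _ h1 h2]
  zero_mem' := by
    refine ⟨0, 1, one_ne_zero, ?_⟩
    rw [← Germ.coe_zero]
    congr 1
    funext t
    simp [rat]
  neg_mem' := by
    rintro a ⟨p, q, hq, rfl⟩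
    refine ⟨-p, q, hq, ?_⟩
    rw [← Germ.coe_neg]
    congr 1
    funext t
    simp only [Pi.neg_apply, rat, eval_neg]
    ring

lemma mem_sqrtField {g : Germ (atTop : Filter ℝ) ℝ} : g ∈ sqrtField ↔
    ∃ p q : ℝ[X], q ≠ 0 ∧ g = ((rat p q : ℝ → ℝ) : Germ (atTop : Filter ℝ) ℝ) := Iff.rfl

lemma hasDerivAt_rat (p q : ℝ[X]) {t : ℝ} (ht : 0 < t) (hq : q.eval (√t) ≠ 0) :
    HasDerivAt (rat p q) (rat (derivative p * q - p * derivative q) (q ^ 2 * (C 2 * X)) t) t := by
  have hs : HasDerivAt (fun t : ℝ => √t) (1 / (2 * √t)) t := Real.hasDerivAt_sqrt ht.ne'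
  have hp1 : HasDerivAt (fun t : ℝ => p.eval (√t)) ((derivative p).eval (√t) * (1 / (2 * √t))) t :=
    (p.hasDerivAt (√t)).comp t hs
  have hq1 : HasDerivAt (fun t : ℝ => q.eval (√t)) ((derivative q).eval (√t) * (1 / (2 * √t))) t :=
    (q.hasDerivAt (√t)).comp t hs
  have h := hp1.div hq1 hq
  have hst : √t ≠ 0 := (Real.sqrt_pos.2 ht).ne'
  refine (h.congr_deriv ?_)
  simp only [rat, eval_mul, eval_sub, eval_pow, eval_C, eval_X]
  field_simp

theorem isHardyField_sqrtField : IsHardyField sqrtField where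
  inv_mem := by
    rintro g ⟨p, q, hq, rfl⟩ hg
    have hp : p ≠ 0 := by
      rintro rfl
      apply hg
      rw [← Germ.coe_zero]
      congr 1
      funext t
      simp [rat]
    refine ⟨_, ⟨q, p, hp, rfl⟩, ?_⟩
    rw [← Germ.coe_mul, ← Germ.coe_one]
    apply Germ.coe_eq.2
    filter_upwards [eventually_eval_ne_zero hq, eventually_eval_ne_zero hp] with t h1 h2
    simp only [Pi.mul_apply, rat, Pi.one_apply]
    field_simp
  deriv_mem := by
    rintro f ⟨p, q, hq, hf⟩
    have hf' : f =ᶠ[atTop] rat p q := Germ.coe_eq.1 hf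
    have hev : ∀ᶠ t : ℝ in atTop, HasDerivAt f
        (rat (derivative p * q - p * derivative q) (q ^ 2 * (C 2 * X)) t) t := by
      obtain ⟨B, hB⟩ := eventually_atTop.1 hf'
      filter_upwards [eventually_gt_atTop B, eventually_gt_atTop 0, eventually_eval_ne_zero hq]
        with t h1 h2 h3
      refine (hasDerivAt_rat p q h2 h3).congr_of_eventuallyEq ?_
      filter_upwards [lt_mem_nhds h1] with s hs
      exact hB s hs.le
    refine ⟨hev.mono fun t ht => ht.differentiableAt, derivative p * q - p * derivative q,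
      q ^ 2 * (C 2 * X), ?_, ?_⟩
    · refine mul_ne_zero (pow_ne_zero 2 hq) (mul_ne_zero ?_ X_ne_zero)
      rw [Ne, C_eq_zero]
      norm_num
    · apply Germ.coe_eq.2
      filter_upwards [hev] with t ht
      exact ht.deriv

/-- the functions `a t ^ (3/2) + b t` -/
noncomputable def fn (a b : ℝ) (t : ℝ) : ℝ := a * t ^ (3 / 2 : ℝ) + b * t

lemma sqrt_pow_three {t : ℝ} (ht : 0 ≤ t) : t ^ (3 / 2 : ℝ) = √t ^ 3 := by
  rw [Real.sqrt_eq_rpow, ← Real.rpow_natCast, ← Real.rpow_mul ht]
  norm_num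

lemma fn_mem (a b : ℝ) : ((fn a b : ℝ → ℝ) : Germ (atTop : Filter ℝ) ℝ) ∈ sqrtField := by
  refine ⟨C a * X ^ 3 + C b * X ^ 2, 1, one_ne_zero, ?_⟩
  apply Germ.coe_eq.2
  filter_upwards [eventually_ge_atTop 0] with t ht
  simp only [fn, rat, eval_add, eval_mul, eval_C, eval_pow, eval_X, eval_one, div_one]
  rw [sqrt_pow_three ht, Real.sq_sqrt ht]

/-- coefficient of the derivatives -/
noncomputable def co : ℕ → ℝ
  | 0 => 1
  | m + 1 => co m * (3 / 2 - m)

lemma iter_fn_zero (a b : ℝ) (t : ℝ) : iteratedDeriv 0 (fn a b) t = fn a b t := by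
  rw [iteratedDeriv_zero]

lemma iter_fn_one (a b : ℝ) {t : ℝ} (ht : 0 < t) :
    iteratedDeriv 1 (fn a b) t = a * (3 / 2) * √t + b := by
  rw [iteratedDeriv_one]
  have h1 : HasDerivAt (fun t : ℝ => t ^ (3 / 2 : ℝ)) (3 / 2 * t ^ ((3 / 2 : ℝ) - 1)) t :=
    Real.hasDerivAt_rpow_const (Or.inl ht.ne')
  have h2 := (h1.const_mul a).add ((hasDerivAt_id t).const_mul b)
  have h3 : HasDerivAt (fn a b) (a * (3 / 2 * t ^ ((3 / 2 : ℝ) - 1)) + b * 1) t := h2
  rw [h3.deriv, Real.sqrt_eq_rpow]
  norm_num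
  ring

lemma iter_fn_ge_two (a b : ℝ) (m : ℕ) : ∀ t : ℝ, 0 < t →
    iteratedDeriv (m + 2) (fn a b) t = a * co (m + 2) * t ^ ((-1 / 2 : ℝ) - m) := by
  induction m with
  | zero =>
    intro t ht
    rw [zero_add, iteratedDeriv_succ]
    have hev : iteratedDeriv 1 (fn a b) =ᶠ[𝓝 t] fun s => a * (3 / 2) * s ^ (1 / 2 : ℝ) + b := by
      filter_upwards [lt_mem_nhds ht] with s hs
      rw [iter_fn_one a b hs, Real.sqrt_eq_rpow]
    rw [hev.deriv_eq]
    have h1 : HasDerivAt (fun t : ℝ => t ^ (1 / 2 : ℝ)) (1 / 2 * t ^ ((1 / 2 : ℝ) - 1)) t :=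
      Real.hasDerivAt_rpow_const (Or.inl ht.ne')
    have h2 := (h1.const_mul (a * (3 / 2))).add_const b
    rw [h2.deriv]
    simp only [co]
    norm_num
    ring
  | succ m ih =>
    intro t ht
    rw [show m + 1 + 2 = (m + 2) + 1 by ring, iteratedDeriv_succ]
    have hev : iteratedDeriv (m + 2) (fn a b) =ᶠ[𝓝 t]
        fun s => a * co (m + 2) * s ^ ((-1 / 2 : ℝ) - m) := by
      filter_upwards [lt_mem_nhds ht] with s hs
      exact ih s hs
    rw [hev.deriv_eq]
    have h1 : HasDerivAt (fun t : ℝ => t ^ ((-1 / 2 : ℝ) - m))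
        (((-1 / 2 : ℝ) - m) * t ^ (((-1 / 2 : ℝ) - m) - 1)) t :=
      Real.hasDerivAt_rpow_const (Or.inl ht.ne')
    have h2 := h1.const_mul (a * co (m + 2))
    rw [h2.deriv]
    have e1 : co (m + 2 + 1) = co (m + 2) * (3 / 2 - ((m + 2 : ℕ) : ℝ)) := rfl
    have e2 : ((-1 / 2 : ℝ) - m) - 1 = (-1 / 2 : ℝ) - ((m + 1 : ℕ) : ℝ) := by push_cast; ring
    rw [e1, e2]
    push_cast
    ring

/-- the polynomial in `√t` to which the `m`-th derivative is asymptotic -/
noncomputable def pol (a b : ℝ) : ℕ → ℝ[X]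
  | 0 => C a * X ^ 3 + C b * X ^ 2
  | 1 => C (a * (3 / 2)) * X + C b
  | _ + 2 => 0

lemma tendsto_iter (a b : ℝ) (m : ℕ) :
    Tendsto (fun t : ℝ => iteratedDeriv m (fn a b) t - (pol a b m).eval (√t)) atTop (𝓝 0) := by
  match m with
  | 0 =>
    refine (tendsto_congr' ?_).2 tendsto_const_nhds
    filter_upwards [eventually_ge_atTop 0] with t ht
    rw [iter_fn_zero]
    simp only [fn, pol, eval_add, eval_mul, eval_C, eval_pow, eval_X]
    rw [sqrt_pow_three ht, Real.sq_sqrt ht]
    ring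
  | 1 =>
    refine (tendsto_congr' ?_).2 tendsto_const_nhds
    filter_upwards [eventually_gt_atTop 0] with t ht
    rw [iter_fn_one a b ht]
    simp only [pol, eval_add, eval_mul, eval_C, eval_X]
    ring
  | m + 2 =>
    have h1 : Tendsto (fun t : ℝ => t ^ ((-1 / 2 : ℝ) - m)) atTop (𝓝 0) := by
      have h2 := tendsto_rpow_neg_atTop (y := 1 / 2 + (m : ℝ)) (by positivity)
      refine h2.congr fun t => ?_
      congr 1
      ring
    have h2 := h1.const_mul (a * co (m + 2))
    rw [mul_zero] at h2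
    refine h2.congr' ?_
    filter_upwards [eventually_gt_atTop 0] with t ht
    rw [iter_fn_ge_two a b m t ht]
    simp [pol]

lemma pos_degree {P : ℝ[X]} {k : ℕ} (hk : 1 ≤ k) (h : P.coeff k ≠ 0) : 0 < P.degree := by
  by_contra hcon
  push Not at hcon
  exact h (coeff_eq_zero_of_degree_lt (lt_of_le_of_lt hcon (by exact_mod_cast hk)))

/-- the dichotomy for `c₁ f₁^(m₁) + c₂ f₂^(m₂)` -/
theorem dichotomy {α : ℝ} (hα : Irrational α) (c₁ c₂ : ℤ) (m₁ m₂ : ℕ) :
    Tendsto (fun t : ℝ => |(c₁ : ℝ) * iteratedDeriv m₁ (fn 1 0) t +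
        c₂ * iteratedDeriv m₂ (fn α 1) t|) atTop (𝓝 0) ∨
    Tendsto (fun t : ℝ => |(c₁ : ℝ) * iteratedDeriv m₁ (fn 1 0) t +
        c₂ * iteratedDeriv m₂ (fn α 1) t|) atTop atTop := by
  set P : ℝ[X] := C (c₁ : ℝ) * pol 1 0 m₁ + C (c₂ : ℝ) * pol α 1 m₂ with hP
  have hr : Tendsto (fun t : ℝ => ((c₁ : ℝ) * iteratedDeriv m₁ (fn 1 0) t +
        c₂ * iteratedDeriv m₂ (fn α 1) t) - P.eval (√t)) atTop (𝓝 0) := by
    have h := ((tendsto_iter 1 0 m₁).const_mul (c₁ : ℝ)).add
      ((tendsto_iter α 1 m₂).const_mul (c₂ : ℝ))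
    rw [mul_zero, mul_zero, add_zero] at h
    refine h.congr fun t => ?_
    rw [hP, eval_add, eval_mul, eval_mul, eval_C, eval_C]
    ring
  have hdeg : P = 0 ∨ 0 < P.degree := by
    have hirr : c₂ ≠ 0 → (c₁ : ℝ) + c₂ * α ≠ 0 := by
      intro h2 h
      have h2' : (c₂ : ℝ) ≠ 0 := by exact_mod_cast h2
      apply hα
      refine ⟨-(c₁ : ℚ) / c₂, ?_⟩
      push_cast
      rw [div_eq_iff h2']
      linarith
    have hα0 : α ≠ 0 := hα.ne_zero
    by_cases h2 : c₂ = 0
    · by_cases h1 : c₁ = 0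
      · left
        rw [hP, h1, h2]
        simp
      · have h1' : (c₁ : ℝ) ≠ 0 := by exact_mod_cast h1
        match m₁ with
        | 0 =>
          right
          refine pos_degree (k := 3) (by norm_num) ?_
          rw [hP, h2]
          simp [pol, coeff_X, h1]
        | 1 =>
          right
          refine pos_degree (k := 1) (by norm_num) ?_
          rw [hP, h2]
          simp [pol, coeff_X, h1]
        | m + 2 =>
          left
          rw [hP, h2]
          simp [pol]
    · have h2' : (c₂ : ℝ) ≠ 0 := by exact_mod_cast h2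
      have hi := hirr h2
      match m₁, m₂ with
      | 0, 0 =>
        right
        refine pos_degree (k := 3) (by norm_num) ?_
        rw [hP]
        simpa [pol, coeff_X, coeff_X_pow] using hi
      | 0, 1 =>
        right
        by_cases h1 : c₁ = 0
        · refine pos_degree (k := 1) (by norm_num) ?_
          rw [hP, h1]
          simp [pol, coeff_X, coeff_C, coeff_one, h2, hα0]
        · refine pos_degree (k := 3) (by norm_num) ?_
          rw [hP]
          simp [pol, coeff_X, coeff_C, coeff_one, h1]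
      | 0, m + 2 =>
        by_cases h1 : c₁ = 0
        · left
          rw [hP, h1]
          simp [pol]
        · right
          refine pos_degree (k := 3) (by norm_num) ?_
          rw [hP]
          simp [pol, coeff_X, coeff_C, h1]
      | 1, 0 =>
        right
        refine pos_degree (k := 3) (by norm_num) ?_
        rw [hP]
        simp [pol, coeff_X, coeff_C, coeff_X_pow, h2, hα0]
      | 1, 1 =>
        right
        refine pos_degree (k := 1) (by norm_num) ?_
        rw [hP]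
        simp only [pol, coeff_add, coeff_C_mul, coeff_X, coeff_C, if_true, one_ne_zero, if_false]
        intro h
        apply hi
        linarith
      | 1, m + 2 =>
        by_cases h1 : c₁ = 0
        · left
          rw [hP, h1]
          simp [pol]
        · right
          refine pos_degree (k := 1) (by norm_num) ?_
          rw [hP]
          simp [pol, coeff_X, coeff_C, h1]
      | m + 2, 0 =>
        right
        refine pos_degree (k := 3) (by norm_num) ?_
        rw [hP]
        simp [pol, coeff_X, coeff_C, coeff_X_pow, h2, hα0]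
      | m + 2, 1 =>
        right
        refine pos_degree (k := 1) (by norm_num) ?_
        rw [hP]
        simp [pol, coeff_X, coeff_C, coeff_one, h2, hα0]
      | m + 2, m' + 2 =>
        left
        rw [hP]
        simp [pol]
  rcases hdeg with h0 | hpos
  · left
    rw [h0] at hr
    simp only [eval_zero, sub_zero] at hr
    simpa using hr.abs
  · right
    have h1 : Tendsto (fun t : ℝ => |P.eval (√t)|) atTop atTop :=
      (P.abs_tendsto_atTop hpos).comp Real.tendsto_sqrt_atTop
    refine tendsto_atTop_mono' _ ?_ (tendsto_atTop_add_const_right _ (-1) h1)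
    have h2 := hr.abs
    rw [abs_zero] at h2
    filter_upwards [h2.eventually (gt_mem_nhds zero_lt_one)] with t ht
    have := abs_sub_abs_le_abs_sub (P.eval (√t)) ((c₁ : ℝ) * iteratedDeriv m₁ (fn 1 0) t +
        c₂ * iteratedDeriv m₂ (fn α 1) t)
    rw [abs_sub_comm] at this
    linarith

end Pool.Agent.R205.HardySqrt
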