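import Mathlib

/-!
# Two flows which never visit a set at nearly the same time

`X = ℝ/ℤ × {0,1}^ℤ`; `φ` is the suspension flow of the Bernoulli shift, `ψ` its conjugate by the involution
changing the colours of all cells except the present one.
-/

set_option autoImplicit false

open MeasureTheory Filter Topology
open scoped ENNReal

namespace Pool.Agent.R205.TwoFlows

/-- representative in `[0, 1)` of a point of the circle -/
noncomputable def r (θ : UnitAddCircle) : ℝ := (AddCircle.equivIco (1 : ℝ) 0 θ : ℝ)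

lemma r_nonneg (θ : UnitAddCircle) : 0 ≤ r θ := (AddCircle.equivIco (1 : ℝ) 0 θ).2.1

lemma r_lt_one (θ : UnitAddCircle) : r θ < 1 := by
  have h : r θ < 0 + 1 := (AddCircle.equivIco (1 : ℝ) 0 θ).2.2
  linarith

lemma coe_r (θ : UnitAddCircle) : ((r θ : ℝ) : UnitAddCircle) = θ :=
  (AddCircle.equivIco (1 : ℝ) 0).symm_apply_apply θ

lemma measurable_r : Measurable r :=
  measurable_subtype_coe.comp (AddCircle.measurableEquivIco (1 : ℝ) 0).measurable

lemma r_of_coe (x : ℝ) : r (x : UnitAddCircle) = Int.fract x := by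
  have h3 : ((r (x : UnitAddCircle) : ℝ) : UnitAddCircle) = ((Int.fract x : ℝ) : UnitAddCircle) := by
    rw [coe_r, AddCircle.coe_fract]
  have := (AddCircle.coe_eq_coe_iff_of_mem_Ico (p := (1 : ℝ)) (a := 0)
    (x := r (x : UnitAddCircle)) (y := Int.fract x)
    ⟨r_nonneg _, by rw [zero_add]; exact r_lt_one _⟩
    ⟨Int.fract_nonneg _, by rw [zero_add]; exact Int.fract_lt_one _⟩).1 h3
  exact this

/-- number of the cell containing `t`, seen from `θ` -/
noncomputable def K (t : ℝ) (θ : UnitAddCircle) : ℤ := ⌊r θ + t⌋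

lemma measurable_K (t : ℝ) : Measurable (K t) :=
  Int.measurable_floor.comp (measurable_r.add_const t)

lemma r_add (θ : UnitAddCircle) (t : ℝ) : r (θ + (t : UnitAddCircle)) = r θ + t - K t θ := by
  have h : θ + (t : UnitAddCircle) = ((r θ + t : ℝ) : UnitAddCircle) := by
    rw [AddCircle.coe_add, coe_r]
  rw [h, r_of_coe, Int.fract, K]

lemma K_add (s t : ℝ) (θ : UnitAddCircle) :
    K (s + t) θ = K t θ + K s (θ + (t : UnitAddCircle)) := by
  have h : r (θ + (t : UnitAddCircle)) + s = (r θ + (s + t)) - (K t θ : ℝ) := by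
    rw [r_add]; ring
  unfold K at *
  rw [h, Int.floor_sub_intCast]
  ring

/-- shift of a two-sided sequence -/
def sh (k : ℤ) (ω : ℤ → Bool) : ℤ → Bool := fun n => ω (n + k)

lemma sh_sh (k l : ℤ) (ω : ℤ → Bool) : sh k (sh l ω) = sh (l + k) ω := by
  funext n
  simp only [sh]
  congr 1
  ring

lemma sh_zero (ω : ℤ → Bool) : sh 0 ω = ω := by
  funext n
  simp [sh]

/-- the fair coin -/
noncomputable def coin : Measure Bool := (PMF.uniformOfFintype Bool).toMeasure

instance : IsProbabilityMeasure coin := by unfold coin; infer_instance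

lemma coin_singleton (b : Bool) : coin {b} = 2⁻¹ := by
  unfold coin
  rw [PMF.toMeasure_apply_singleton _ _ (MeasurableSet.singleton b)]
  simp

lemma coin_map_not : coin.map not = coin := by
  refine Measure.ext_of_singleton fun b => ?_
  rw [Measure.map_apply (measurable_of_countable _) (MeasurableSet.singleton b)]
  have : not ⁻¹' {b} = {!b} := by
    ext c
    cases b <;> cases c <;> simp
  rw [this, coin_singleton, coin_singleton]

/-- the Bernoulli measure -/
noncomputable def bern : Measure (ℤ → Bool) := Measure.infinitePi fun _ => coin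

instance : IsProbabilityMeasure bern := by unfold bern; infer_instance

lemma measurable_sh (k : ℤ) : Measurable (sh k) :=
  measurable_pi_lambda _ fun _ => measurable_pi_apply _

lemma map_sh (k : ℤ) : bern.map (sh k) = bern := by
  classical
  unfold bern
  refine Measure.eq_infinitePi _ fun s t ht => ?_
  rw [Measure.map_apply (measurable_sh k) (.pi s.countable_toSet fun _ _ => ht _)]
  have h1 : sh k ⁻¹' ((s : Set ℤ).pi t) =
      ((s.image fun i => i + k : Finset ℤ) : Set ℤ).pi (fun i => t (i - k)) := by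
    ext ω
    simp only [Set.mem_preimage, Set.mem_pi, sh, Finset.coe_image, Set.forall_mem_image,
      add_sub_cancel_right]
  rw [h1, Measure.infinitePi_pi _ (fun i _ => ht _), Finset.prod_image (fun a _ b _ h => by simpa using h)]
  simp

/-- the involution changing all colours but the present one -/
def sw (ω : ℤ → Bool) : ℤ → Bool := fun n => if n = 0 then ω n else !(ω n)

lemma sw_sw (ω : ℤ → Bool) : sw (sw ω) = ω := by
  funext n
  simp only [sw]
  split_ifs <;> simp

lemma measurable_sw : Measurable sw := by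
  refine measurable_pi_lambda _ fun n => ?_
  unfold sw
  split_ifs
  · exact measurable_pi_apply _
  · exact (measurable_of_countable not).comp (measurable_pi_apply n)

lemma map_sw : bern.map sw = bern := by
  unfold bern
  have h := Measure.infinitePi_map_pi (μ := fun _ : ℤ => coin)
    (f := fun n b => if n = 0 then b else !b) (fun n => measurable_of_countable _)
  have h2 : (fun n : ℤ => coin.map (fun b => if n = 0 then b else !b)) = fun _ : ℤ => coin := by
    funext n
    by_cases hn : n = 0
    · simp only [hn, if_true]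
      exact Measure.map_id
    · simp only [hn, if_false]
      exact coin_map_not
  rw [h2] at h
  exact h

/-- the space -/
abbrev X : Type := UnitAddCircle × (ℤ → Bool)

/-- the measure -/
noncomputable def μ : Measure X := (volume : Measure UnitAddCircle).prod bern

instance : IsProbabilityMeasure (volume : Measure UnitAddCircle) := ⟨UnitAddCircle.measure_univ⟩

instance : IsProbabilityMeasure μ := by unfold μ; infer_instance

/-- underlying map of the flow -/
noncomputable def flowFun (t : ℝ) (p : X) : X := (p.1 + (t : UnitAddCircle), sh (K t p.1) p.2)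

lemma flowFun_add (s t : ℝ) (p : X) : flowFun (s + t) p = flowFun s (flowFun t p) := by
  unfold flowFun
  ext1
  · simp only [AddCircle.coe_add]
    abel
  · simp only [sh_sh]
    rw [K_add]

lemma flowFun_zero (p : X) : flowFun 0 p = p := by
  have h : K 0 p.1 = 0 := by
    unfold K
    rw [Int.floor_eq_iff]
    have := r_nonneg p.1
    have := r_lt_one p.1
    constructor
    · push_cast; linarith
    · push_cast; linarith
  unfold flowFun
  rw [h, sh_zero]
  simp

lemma measurable_shK (t : ℝ) :
    Measurable (Function.uncurry fun (θ : UnitAddCircle) (ω : ℤ → Bool) => sh (K t θ) ω) := by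
  refine measurable_pi_lambda _ fun n => ?_
  have h : Measurable fun q : ℤ × (ℤ → Bool) => q.2 (n + q.1) :=
    measurable_from_prod_countable_right fun k => by
      show Measurable fun y : ℤ → Bool => y (n + k)
      exact measurable_pi_apply (n + k)
  exact h.comp (((measurable_K t).comp measurable_fst).prodMk measurable_snd)

lemma measurable_flowFun (t : ℝ) : Measurable (flowFun t) :=
  (measurable_fst.add_const _).prodMk (measurable_shK t)

/-- the flow `φ` -/
noncomputable def φ (t : ℝ) : X ≃ᵐ X where
  toFun := flowFun t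
  invFun := flowFun (-t)
  left_inv p := by rw [← flowFun_add]; simp [flowFun_zero]
  right_inv p := by rw [← flowFun_add]; simp [flowFun_zero]
  measurable_toFun := measurable_flowFun t
  measurable_invFun := measurable_flowFun (-t)

lemma φ_apply (t : ℝ) (p : X) : φ t p = (p.1 + (t : UnitAddCircle), sh (K t p.1) p.2) := rfl

lemma mp_φ (t : ℝ) : MeasurePreserving (φ t) μ μ := by
  unfold μ
  exact (measurePreserving_add_right volume (t : UnitAddCircle)).skew_product
    (measurable_shK t) (Eventually.of_forall fun θ => map_sh _)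

/-- the involution -/
def σ : X ≃ᵐ X where
  toFun p := (p.1, sw p.2)
  invFun p := (p.1, sw p.2)
  left_inv p := by simp [sw_sw]
  right_inv p := by simp [sw_sw]
  measurable_toFun := measurable_fst.prodMk (measurable_sw.comp measurable_snd)
  measurable_invFun := measurable_fst.prodMk (measurable_sw.comp measurable_snd)

lemma mp_σ : MeasurePreserving σ μ μ := by
  unfold μ
  exact (MeasurePreserving.id volume).prod ⟨measurable_sw, map_sw⟩

lemma σσ (p : X) : σ (σ p) = p := by
  show (p.1, sw (sw p.2)) = p
  rw [sw_sw]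

/-- the flow `ψ` -/
noncomputable def ψ (t : ℝ) : X ≃ᵐ X := (σ.trans (φ t)).trans σ

lemma ψ_apply (t : ℝ) (p : X) : ψ t p = σ (φ t (σ p)) := rfl

lemma mp_ψ (t : ℝ) : MeasurePreserving (ψ t) μ μ := (mp_σ.comp (mp_φ t)).comp mp_σ

lemma φ_add (s t : ℝ) (p : X) : φ (s + t) p = φ s (φ t p) := flowFun_add s t p

lemma φ_zero (p : X) : φ 0 p = p := flowFun_zero p

lemma ψ_add (s t : ℝ) (p : X) : ψ (s + t) p = ψ s (ψ t p) := by
  simp only [ψ_apply, σσ, φ_add]

lemma ψ_zero (p : X) : ψ 0 p = p := by
  simp only [ψ_apply, φ_zero, σσ]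

/-- the set `A` -/
def A : Set X := {p | p.2 0 = true ∧ r p.1 ∈ Set.Ico (1 / 4 : ℝ) (3 / 4)}

lemma measurableSet_A : MeasurableSet A := by
  have h0 : Measurable fun p : X => p.2 0 := (measurable_pi_apply 0).comp measurable_snd
  have h1 : MeasurableSet {p : X | p.2 0 = true} := h0 (MeasurableSet.singleton true)
  have h2 : MeasurableSet {p : X | r p.1 ∈ Set.Ico (1 / 4 : ℝ) (3 / 4)} :=
    (measurable_r.comp measurable_fst) measurableSet_Ico
  exact h1.inter h2

lemma disjoint_visits {s t : ℝ} (hs : 1 ≤ s) (hst : |s - t| < 1 / 2) (p : X)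
    (h1 : φ s p ∈ A) (h2 : ψ t p ∈ A) : False := by
  obtain ⟨a1, a2⟩ := h1
  obtain ⟨b1, b2⟩ := h2
  rw [ψ_apply] at b1 b2
  have e1 : (φ s p).2 0 = p.2 (K s p.1) := by
    rw [φ_apply]; simp [sh]
  have e2 : (σ (φ t (σ p))).2 0 = sw p.2 (K t p.1) := by
    show sw (φ t (σ p)).2 0 = _
    rw [φ_apply]
    simp only [sw, if_true, sh, zero_add]
    rfl
  have e3 : (φ s p).1 = p.1 + (s : UnitAddCircle) := rfl
  have e4 : (σ (φ t (σ p))).1 = p.1 + (t : UnitAddCircle) := rfl
  rw [e1] at a1
  rw [e2] at b1
  rw [e3, r_add] at a2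
  rw [e4, r_add] at b2
  obtain ⟨a3, a4⟩ := a2
  obtain ⟨b3, b4⟩ := b2
  rw [abs_lt] at hst
  have hK : K s p.1 = K t p.1 := by
    have h3 : (K s p.1 : ℝ) < K t p.1 + 1 := by linarith
    have h4 : (K t p.1 : ℝ) < K s p.1 + 1 := by linarith
    have h3' : K s p.1 < K t p.1 + 1 := by exact_mod_cast h3
    have h4' : K t p.1 < K s p.1 + 1 := by exact_mod_cast h4
    omega
  have hK0 : K s p.1 ≠ 0 := by
    have h5 : 1 ≤ K s p.1 := by
      unfold K
      rw [Int.le_floor]
      have := r_nonneg p.1
      push_cast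
      linarith
    omega
  rw [← hK] at b1
  simp only [sw, hK0, if_false] at b1
  rw [a1] at b1
  simp at b1

lemma A_pos : 0 < μ A := by
  have h : A = {θ : UnitAddCircle | r θ ∈ Set.Ico (1 / 4 : ℝ) (3 / 4)} ×ˢ {ω : ℤ → Bool | ω 0 = true} := by
    ext p
    simp only [A, Set.mem_ofPred_eq, Set.mem_prod]
    exact and_comm
  rw [h, μ, Measure.prod_prod]
  have h1 : bern {ω : ℤ → Bool | ω 0 = true} = 2⁻¹ := by
    have := Measure.infinitePi_map_eval (fun _ : ℤ => coin) 0
    have h2 : bern {ω : ℤ → Bool | ω 0 = true} = (bern.map fun ω => ω 0) {true} := by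
      rw [Measure.map_apply (measurable_pi_apply 0) (MeasurableSet.singleton true)]
      rfl
    rw [h2]
    unfold bern
    rw [this, coin_singleton]
  have h3 : 0 < (volume : Measure UnitAddCircle) {θ | r θ ∈ Set.Ico (1 / 4 : ℝ) (3 / 4)} := by
    -- contains the open image of the interval `(1/4, 3/4)`
    have hop : IsOpen ((fun x : ℝ => (x : UnitAddCircle)) '' Set.Ioo (1 / 4) (3 / 4)) :=
      QuotientAddGroup.isOpenMap_coe _ isOpen_Ioo
    have hne : ((fun x : ℝ => (x : UnitAddCircle)) '' Set.Ioo (1 / 4) (3 / 4)).Nonempty :=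
      ⟨_, 1 / 2, ⟨by norm_num, by norm_num⟩, rfl⟩
    refine lt_of_lt_of_le (hop.measure_pos volume hne) (measure_mono ?_)
    rintro _ ⟨x, hx, rfl⟩
    show r (x : UnitAddCircle) ∈ Set.Ico (1 / 4 : ℝ) (3 / 4)
    rw [r_of_coe, Int.fract_eq_self.2 ⟨by linarith [hx.1], by linarith [hx.2]⟩]
    exact ⟨hx.1.le, hx.2⟩
  rw [h1]
  exact ENNReal.mul_pos h3.ne' (by simp)

end Pool.Agent.R205.TwoFlows
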